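import Pool.Agent.H741.EL.Stm
import Pool.Graph.R_seed8.Y508.PerimUp
import Pool.Graph.R_seed8.Y508.PerimLow

/-!
# The boundary curve of a convex body
-/

set_option autoImplicit false
open MeasureTheory Metric Set Filter Topology

namespace Pool.Agent.H935.EL
open Pool.Agent.Y508 Pool.Agent.H741.EL

theorem t_CURVE : S_CURVE := by
  intro K hK
  obtain ⟨c, hc, hper, hfr, hinj, hsur⟩ := exists_param hK
  have hpi : (0 : ℝ) < 2 * Real.pi := Real.two_pi_pos
  set γ : ℝ → E2 := fun t => c (2 * Real.pi * t) with hγ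
  have hγc : Continuous γ := hc.comp (continuous_const.mul continuous_id)
  have hγi : InjOn γ (Ico 0 1) := by
    intro s hs t ht hst
    have h1 : 2 * Real.pi * s ∈ Ico (0 : ℝ) (2 * Real.pi) :=
      ⟨mul_nonneg hpi.le hs.1, by nlinarith [hs.2]⟩
    have h2 : 2 * Real.pi * t ∈ Ico (0 : ℝ) (2 * Real.pi) :=
      ⟨mul_nonneg hpi.le ht.1, by nlinarith [ht.2]⟩
    exact mul_left_cancel₀ hpi.ne' (hinj h1 h2 hst)
  refine ⟨γ, ⟨hγc.continuousOn, ?_, hγi⟩, ?_, ?_⟩
  · show c (2 * Real.pi * 0) = c (2 * Real.pi * 1)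
    rw [mul_zero, mul_one, hper]
  · apply Set.Subset.antisymm
    · rintro _ ⟨t, -, rfl⟩
      exact hfr _
    · intro x hx
      obtain ⟨φ, hφ, rfl⟩ := hsur x hx
      refine ⟨φ / (2 * Real.pi), ⟨div_nonneg hφ.1 hpi.le, (div_le_one hpi).2 hφ.2.le⟩, ?_⟩
      show c (2 * Real.pi * (φ / (2 * Real.pi))) = c φ
      rw [mul_div_cancel₀ _ hpi.ne']
  · refine le_trans ?_ (perim_le hK)
    unfold len eVariationOn
    refine iSup_le ?_
    rintro ⟨n, u, hu, hus⟩
    have hmem : ∀ i, Ico (u i) (u (i + 1)) ⊆ Ico (0 : ℝ) 1 := fun i x hx =>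
      ⟨(hus i).1.trans hx.1, hx.2.trans_le (hus (i + 1)).2⟩
    have hstep : ∀ i, edist (γ (u (i + 1))) (γ (u i)) ≤
        (μH[1] : Measure E2) (γ '' Ico (u i) (u (i + 1))) := by
      intro i
      rw [edist_dist, dist_eq_norm]
      exact arc_ge (hu (Nat.le_succ i)) hγc.continuousOn
    have hdisj : Set.PairwiseDisjoint (↑(Finset.range n) : Set ℕ)
        (fun i => γ '' Ico (u i) (u (i + 1))) := by
      have key : ∀ i j : ℕ, i < j → Disjoint (γ '' Ico (u i) (u (i + 1)))
          (γ '' Ico (u j) (u (j + 1))) := by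
        intro i j hij
        rw [Set.disjoint_left]
        rintro _ ⟨s, hs, rfl⟩ ⟨t, ht, hst⟩
        have h1 : t = s := hγi (hmem j ht) (hmem i hs) hst
        have h2 : u (i + 1) ≤ u j := hu hij
        have h3 := hs.2
        have h4 := ht.1
        rw [h1] at h4
        exact absurd h3 (not_lt.2 (h2.trans h4))
      intro i _ j _ hij
      rcases lt_or_gt_of_ne hij with h | h
      · exact key i j h
      · exact (key j i h).symm
    have hmeas : ∀ i ∈ Finset.range n, MeasurableSet (γ '' Ico (u i) (u (i + 1))) := fun i _ =>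
      measurableSet_Ico.image_of_continuousOn_injOn hγc.continuousOn (hγi.mono (hmem i))
    calc ∑ i ∈ Finset.range n, edist (γ (u (i + 1))) (γ (u i))
        ≤ ∑ i ∈ Finset.range n, (μH[1] : Measure E2) (γ '' Ico (u i) (u (i + 1))) :=
          Finset.sum_le_sum fun i _ => hstep i
      _ = (μH[1] : Measure E2) (⋃ i ∈ Finset.range n, γ '' Ico (u i) (u (i + 1))) :=
          (measure_biUnion_finset hdisj hmeas).symm
      _ ≤ (μH[1] : Measure E2) (frontier K) := by
          refine measure_mono (iUnion₂_subset fun i _ => ?_)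
          rintro _ ⟨t, -, rfl⟩
          exact hfr _

end Pool.Agent.H935.EL
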